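import Pool.Agent.R484.PAb

/-!
# The `p`-adic closure of subgroups of rational points of simple abelian varieties

Let `A` be a simple abelian variety over `ℚ` of dimension `n ≥ 1`, `D = End(A) ⊗ ℚ` (a division
ring), `M = A(ℚ) ⊗ ℚ`, `V = Lie A` (of dimension `n`), and `log : M → ℚ_p ⊗ V` the logarithm. The
`ℤ_p`-rank of the closure of a subgroup `𝓛` of `A(ℚ)` is the dimension over `ℚ_p` of the space spanned
by the logarithms of its elements; this is `rk ℚ_[p] log L` for the subspace `L = 𝓛 ⊗ ℚ` of `M`, whose
dimension is the rank of `𝓛`.

1. The known counterexamples for non-simple `A` (three points of `E × E × E`) come from relations which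
   hold for *all* maps which commute with the endomorphisms of `A`. For simple `A` there are no such
   relations: there is a map `φ : M → ℚ_p ⊗ V` which commutes with `D`, such that for *all* subspaces
   `L` of `M` of dimension at most `n` the space spanned by `φ(L)` has the same dimension as `L`.
2. If `F` is a (commutative) field contained in `D` and `𝓛` is contained, up to torsion and multiples, in
   `F · P` for a point `P`, then the closure of `𝓛` has `ℤ_p`-rank equal to the rank of `𝓛`. For example
   this settles the question for `A` with multiplication by a field `F` of degree `n` (varieties of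
   `GL₂`-type) and `A(ℚ)` of rank `n`: then the closure of `A(ℚ)` is open in `A(ℚ_p)`, and each subgroup
   of rank `m` has a closure of `ℤ_p`-rank `m`.

The only transcendence result used is the `p`-adic analytic subgroup theorem for the powers of a single
point, which is a field of the structure `PadicLogarithm`.
-/

open Module TensorProduct Pool.Agent.R484.PA

namespace Pool.Agent.Results.MP_52423f_nt.NoForcedRelations

/-- **Simple abelian varieties have no forced relations between logarithms**, and the question for
subgroups of cyclic modules over fields of endomorphisms. -/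
theorem result {p : ℕ} [Fact p.Prime] {D M V : Type} [DivisionRing D] [Algebra ℚ D]
    [AddCommGroup M] [Module D M] [Module ℚ M] [IsScalarTower ℚ D M] [FiniteDimensional ℚ M]
    [AddCommGroup V] [Module D V] [Module ℚ V] [IsScalarTower ℚ D V] [FiniteDimensional ℚ V]
    [Nontrivial V] (T : PadicLogarithm p D M V) :
    (∃ φ : M →ₗ[ℚ] ℚ_[p] ⊗[ℚ] V,
      (∀ (d : D) (x : M), φ (d • x) = (mulBy V d).lTensor ℚ_[p] (φ x)) ∧
      ∀ L : Submodule ℚ M, finrank ℚ L ≤ finrank ℚ V → rk ℚ_[p] φ L = finrank ℚ L) ∧
    (∀ (F : Type) [Field F] [Algebra ℚ F] [FiniteDimensional ℚ F] (φ : F →ₐ[ℚ] D) (P : M)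
      (L : Submodule ℚ M), (∀ x ∈ L, ∃ a : F, x = φ a • P) →
        rk ℚ_[p] T.log L = finrank ℚ L) := by
  constructor
  · have hfin : FiniteDimensional ℚ (M →ₗ[D] V) :=
      FiniteDimensional.of_injective (LinearMap.restrictScalarsₗ ℚ D M V ℚ)
        (LinearMap.restrictScalars_injective ℚ)
    obtain ⟨t, ht⟩ := exists_algInd p (finrank ℚ (M →ₗ[D] V))
    obtain ⟨φ, h1, h2⟩ := exists_generic (finBasis ℚ (M →ₗ[D] V)) ht
    exact ⟨φ, h1, fun L h => h2 L h⟩
  · intro F _ _ _ φ P L hL
    exact rank_field T φ P L hL

end Pool.Agent.Results.MP_52423f_nt.NoForcedRelations
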